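import Pool.Agent.Lib.MP_688fd0_co.TE.Iface5

/-! Theorem E, chapter 5: averaging lemmas for the kernels `UM` and for `av`, and telescoping with
two alternating functions. -/

namespace Pool.Agent.Lib.MP_688fd0_co.TE.H15

universe u

section

variable {G : Type u} [Group G] [Fintype G] [DecidableEq G]

theorem UM_nonneg (S : Finset G) (x y : G) : 0 ≤ UM S x y :=
  div_nonneg (ind_nonneg _) (Nat.cast_nonneg _)

theorem sum_UM (S : Finset G) (x : G) (F : G → ℝ) :
    ∑ y, UM S x y * F y = ∑ s ∈ S, (1 / (S.card : ℝ)) * F (x * s) := by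
  have h1 : ∑ y, UM S x y * F y = ∑ s, UM S x (x * s) * F (x * s) :=
    (Fintype.sum_equiv (Equiv.mulLeft x) (fun s => UM S x (x * s) * F (x * s))
      (fun y => UM S x y * F y) (fun s => rfl)).symm
  rw [h1, ← Finset.sum_subset (Finset.subset_univ S)]
  · refine Finset.sum_congr rfl fun s hs => ?_
    unfold UM
    rw [inv_mul_cancel_left, ind_of hs]
  · intro s _ hs
    unfold UM
    rw [inv_mul_cancel_left, ind_not hs]
    simp

theorem UM_row {S : Finset G} (hS : S.Nonempty) (x : G) : ∑ y, UM S x y = 1 := by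
  have h := sum_UM S x (fun _ => (1 : ℝ))
  simp only [mul_one] at h
  rw [h, Finset.sum_const, nsmul_eq_mul]
  have : (S.card : ℝ) ≠ 0 := by exact_mod_cast hS.card_pos.ne'
  field_simp

theorem UM_symm {S : Finset G} (hS : Sy S) (x y : G) : UM S x y = UM S y x := by
  unfold UM
  congr 1
  have : (x⁻¹ * y ∈ S) = (y⁻¹ * x ∈ S) := by
    apply propext
    constructor
    · intro h
      have := hS.inv _ h
      simpa using this
    · intro h
      have := hS.inv _ h
      simpa using this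
  rw [this]

theorem UM_mem {S : Finset G} {x y : G} (h : UM S x y ≠ 0) : x⁻¹ * y ∈ S := by
  by_contra hn
  apply h
  unfold UM
  rw [ind_not hn, zero_div]

/-- the `L¹` distance along the kernel of a set. -/
theorem kerD (S : Finset G) (f g : G → ℝ) (β : ℝ) (hβ : 0 ≤ β)
    (h : ∀ s ∈ S, ∑ z, |f z - g (z * s)| ≤ β) :
    ∑ v, ∑ v', UM S v v' * |f v - g v'| ≤ β := by
  have h1 : ∑ v, ∑ v', UM S v v' * |f v - g v'| =
      ∑ s ∈ S, (1 / (S.card : ℝ)) * ∑ v, |f v - g (v * s)| := by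
    rw [Finset.sum_congr rfl fun v _ => sum_UM S v (fun v' => |f v - g v'|), Finset.sum_comm]
    refine Finset.sum_congr rfl fun s _ => ?_
    rw [Finset.mul_sum]
  rw [h1]
  rcases S.eq_empty_or_nonempty with rfl | hS
  · simpa using hβ
  · calc ∑ s ∈ S, (1 / (S.card : ℝ)) * ∑ v, |f v - g (v * s)|
        ≤ ∑ s ∈ S, (1 / (S.card : ℝ)) * β := by
          refine Finset.sum_le_sum fun s hs => ?_
          exact mul_le_mul_of_nonneg_left (h s hs) (by positivity)
      _ = β := by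
          rw [Finset.sum_const, nsmul_eq_mul]
          have : (S.card : ℝ) ≠ 0 := by exact_mod_cast hS.card_pos.ne'
          field_simp

theorem flipD {S : Finset G} (hS : Sy S) (f g : G → ℝ) (β : ℝ)
    (h : ∀ s ∈ S, ∑ z, |f z - g (z * s)| ≤ β) : ∀ s ∈ S, ∑ z, |g z - f (z * s)| ≤ β := by
  intro s hs
  have h1 : ∑ z, |g z - f (z * s)| = ∑ w, |f w - g (w * s⁻¹)| := by
    refine Fintype.sum_equiv (Equiv.mulRight s) _ _ fun z => ?_
    simp only [Equiv.coe_mulRight, mul_inv_cancel_right]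
    rw [abs_sub_comm]
  rw [h1]
  exact h _ (hS.inv _ hs)

theorem oddW_one {L : Finset G} {N : ℕ} (hN : 1 ≤ N) {s : G} (hs : s ∈ L) : oddW L N s :=
  ⟨1, odd_one, hN, [s], rfl, by simpa using hs, by simp⟩

theorem oddW_three {L : Finset G} {N : ℕ} (hN : 3 ≤ N) {a b d : G} (ha : a ∈ L) (hb : b ∈ L)
    (hd : d ∈ L) : oddW L N (a * b * d) := by
  refine ⟨3, by decide, hN, [a, b, d], rfl, ?_, by simp [mul_assoc]⟩
  intro s hs
  simp only [List.mem_cons, List.not_mem_nil, or_false] at hs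
  rcases hs with rfl | rfl | rfl <;> assumption

theorem oddW_mono {L : Finset G} {N N' : ℕ} (h : N ≤ N') {s : G} (hs : oddW L N s) :
    oddW L N' s := by
  obtain ⟨j, h1, h2, h3⟩ := hs
  exact ⟨j, h1, h2.trans h, h3⟩

theorem sub_Lt (B C : Finset G) (τ : Bool) : B ⊆ Lt B C τ := by
  unfold Lt
  cases τ
  · simp
  · simp [Finset.subset_union_left]

theorem sub_Lt' (B C : Finset G) : C ⊆ Lt B C true := by
  unfold Lt
  simp [Finset.subset_union_right]

theorem Sy_Lt {B C : Finset G} (hB : Sy B) (hC : Sy C) (τ : Bool) : Sy (Lt B C τ) := by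
  cases τ
  · simpa [Lt] using hB
  · refine ⟨?_, ?_⟩
    · obtain ⟨s, hs⟩ := hB.ne
      exact ⟨s, sub_Lt B C true hs⟩
    · intro s hs
      simp only [Lt, if_true, Finset.mem_union] at hs ⊢
      rcases hs with hs | hs
      · exact Or.inl (hB.inv _ hs)
      · exact Or.inr (hC.inv _ hs)

/-- difference of two averages as a double average. -/
theorem av_sub (c : Ctx G) (U0 V0 : G → ℝ) (x y : G) :
    c.av U0 x - c.av V0 y =
      ∑ z, ∑ z', UM c.B x z * UM c.B y z' * (U0 z - V0 z') := by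
  have e1 : ∑ z, ∑ z', UM c.B x z * UM c.B y z' * U0 z = c.av U0 x := by
    unfold Ctx.av
    refine Finset.sum_congr rfl fun z _ => ?_
    have : ∑ z', UM c.B x z * UM c.B y z' * U0 z = UM c.B x z * U0 z * ∑ z', UM c.B y z' := by
      rw [Finset.mul_sum]
      exact Finset.sum_congr rfl fun z' _ => by ring
    rw [this, UM_row c.hB.ne, mul_one]
  have e2 : ∑ z, ∑ z', UM c.B x z * UM c.B y z' * V0 z' = c.av V0 y := by
    rw [Finset.sum_comm]
    unfold Ctx.av
    refine Finset.sum_congr rfl fun z' _ => ?_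
    have : ∑ z, UM c.B x z * UM c.B y z' * V0 z' = UM c.B y z' * V0 z' * ∑ z, UM c.B x z := by
      rw [Finset.mul_sum]
      exact Finset.sum_congr rfl fun z _ => by ring
    rw [this, UM_row c.hB.ne, mul_one]
  rw [← e1, ← e2, ← Finset.sum_sub_distrib]
  refine Finset.sum_congr rfl fun z _ => ?_
  rw [← Finset.sum_sub_distrib]
  exact Finset.sum_congr rfl fun z' _ => by ring

theorem av_abs (c : Ctx G) (U0 V0 : G → ℝ) (x y : G) :
    |c.av U0 x - c.av V0 y| ≤
      ∑ z, ∑ z', UM c.B x z * UM c.B y z' * |U0 z - V0 z'| := by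
  rw [av_sub]
  refine (Finset.abs_sum_le_sum_abs _ _).trans (Finset.sum_le_sum fun z _ => ?_)
  refine (Finset.abs_sum_le_sum_abs _ _).trans (Finset.sum_le_sum fun z' _ => ?_)
  rw [abs_mul, abs_of_nonneg (mul_nonneg (UM_nonneg _ _ _) (UM_nonneg _ _ _))]

/-- averaging does not increase the `L¹` distances. -/
theorem avD (c : Ctx G) (L : Finset G) (hL : c.B ⊆ L) (U0 V0 : G → ℝ) (β : ℝ)
    (h : ∀ s, oddW L 7 s → ∑ z, |U0 z - V0 (z * s)| ≤ β) :
    ∀ s ∈ L, ∑ z, |c.av U0 z - c.av V0 (z * s)| ≤ β := by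
  intro s hs
  have hb0 : (c.B.card : ℝ) ≠ 0 := by exact_mod_cast c.hB.ne.card_pos.ne'
  calc ∑ z, |c.av U0 z - c.av V0 (z * s)|
      ≤ ∑ z, ∑ b1 ∈ c.B, ∑ b2 ∈ c.B, (1 / (c.B.card : ℝ)) * ((1 / (c.B.card : ℝ)) *
          |U0 (z * b1) - V0 (z * s * b2)|) := by
        refine Finset.sum_le_sum fun z _ => (av_abs c U0 V0 z (z * s)).trans (le_of_eq ?_)
        have : ∀ z1, ∑ z', UM c.B z z1 * UM c.B (z * s) z' * |U0 z1 - V0 z'| =
            UM c.B z z1 * ∑ b2 ∈ c.B, (1 / (c.B.card : ℝ)) * |U0 z1 - V0 (z * s * b2)| := by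
          intro z1
          rw [← sum_UM c.B (z * s) (fun z' => |U0 z1 - V0 z'|), Finset.mul_sum]
          exact Finset.sum_congr rfl fun z' _ => by ring
        rw [Finset.sum_congr rfl fun z1 _ => this z1,
          sum_UM c.B z (fun z1 => ∑ b2 ∈ c.B, (1 / (c.B.card : ℝ)) * |U0 z1 - V0 (z * s * b2)|)]
        refine Finset.sum_congr rfl fun b1 _ => ?_
        rw [Finset.mul_sum]
    _ = ∑ b1 ∈ c.B, ∑ b2 ∈ c.B, (1 / (c.B.card : ℝ)) * ((1 / (c.B.card : ℝ)) *
          ∑ z, |U0 (z * b1) - V0 (z * s * b2)|) := by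
        rw [Finset.sum_comm]
        refine Finset.sum_congr rfl fun b1 _ => ?_
        rw [Finset.sum_comm]
        refine Finset.sum_congr rfl fun b2 _ => ?_
        rw [Finset.mul_sum, Finset.mul_sum]
    _ ≤ ∑ b1 ∈ c.B, ∑ b2 ∈ c.B, (1 / (c.B.card : ℝ)) * ((1 / (c.B.card : ℝ)) * β) := by
        refine Finset.sum_le_sum fun b1 hb1 => Finset.sum_le_sum fun b2 hb2 => ?_
        refine mul_le_mul_of_nonneg_left (mul_le_mul_of_nonneg_left ?_ (by positivity))
          (by positivity)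
        have h1 : ∑ z, |U0 (z * b1) - V0 (z * s * b2)| =
            ∑ w, |U0 w - V0 (w * (b1⁻¹ * s * b2))| := by
          refine Fintype.sum_equiv (Equiv.mulRight b1) _ _ fun z => ?_
          simp only [Equiv.coe_mulRight]
          congr 3
          group
        rw [h1]
        exact h _ (oddW_three (by norm_num) (hL (c.hB.inv _ hb1)) hs (hL hb2))
    _ = β := by
        rw [Finset.sum_const, Finset.sum_const, nsmul_eq_mul, nsmul_eq_mul]
        field_simp

/-- the alternating pair of functions. -/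
def alt (f g : G → ℝ) (j : ℕ) : G → ℝ := if Even j then f else g

theorem alt_bound {S : Finset G} (hS : Sy S) (f g : G → ℝ) (β : ℝ) (hβ : 0 ≤ β)
    (h : ∀ s ∈ S, ∑ z, |f z - g (z * s)| ≤ β) (j : ℕ) :
    ∑ v, ∑ v', UM S v v' * |alt f g j v - alt f g (j + 1) v'| ≤ β := by
  by_cases hj : Even j
  · have hj1 : ¬ Even (j + 1) := by rw [Nat.even_add_one]; exact not_not.mpr hj
    simp only [alt, if_pos hj, if_neg hj1]
    exact kerD S f g β hβ h
  · have hj1 : Even (j + 1) := by rw [Nat.even_add_one]; exact hj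
    simp only [alt, if_neg hj, if_pos hj1]
    exact kerD S g f β hβ (flipD hS f g β h)

theorem alt_WM {c : Ctx G} (τ : Bool) (f g : G → ℝ) (β : ℝ) (hβ : 0 ≤ β)
    (h : ∀ s ∈ Lt c.B c.C τ, ∑ z, |f z - g (z * s)| ≤ β) (j : ℕ) (P : Matrix G G ℝ)
    (hP : P = UM c.B ∨ P = WM c.B c.C τ) :
    ∑ v, ∑ v', P v v' * |alt f g j v - alt f g (j + 1) v'| ≤ β := by
  have hB := alt_bound c.hB f g β hβ (fun s hs => h s (sub_Lt _ _ _ hs)) j
  rcases hP with rfl | rfl
  · exact hB
  · cases τ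
    · simpa [WM] using hB
    · have hC := alt_bound c.hC f g β hβ (fun s hs => h s (sub_Lt' _ _ hs)) j
      have e : ∑ v, ∑ v', WM c.B c.C true v v' * |alt f g j v - alt f g (j + 1) v'| =
          (1 / 2 : ℝ) * (∑ v, ∑ v', UM c.B v v' * |alt f g j v - alt f g (j + 1) v'| +
            ∑ v, ∑ v', UM c.C v v' * |alt f g j v - alt f g (j + 1) v'|) := by
        rw [← Finset.sum_add_distrib, Finset.mul_sum]
        refine Finset.sum_congr rfl fun v _ => ?_
        rw [← Finset.sum_add_distrib, Finset.mul_sum]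
        refine Finset.sum_congr rfl fun v' _ => ?_
        simp only [WM, if_true, Matrix.smul_apply, Matrix.add_apply, smul_eq_mul]
        ring
      rw [e]
      linarith

/-- telescoping along an odd link with alternating functions. -/
theorem tele_eq (hT : TELE_S.{u}) (c : Ctx G) (τ : Bool) (f g : G → ℝ) (x y : G)
    (hK : c.K τ true 0 (c.len true) x y ≠ 0) :
    f x - g y = ∑ j ∈ Finset.range (c.len true), ∑ v, ∑ v',
      c.U τ true x y j v v' * (alt f g j v - alt f g (j + 1) v') := by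
  have h := hT G (c.cc τ true) (c.len true) x y (fun j => alt f g j) hK
  have h0 : alt f g 0 = f := if_pos (by decide)
  have hn : alt f g (c.len true) = g := by
    apply if_neg
    simp only [Ctx.len, if_true]
    rw [Nat.even_add_one]
    exact not_not.mpr ⟨3 * c.k, by ring⟩
  rw [h0, hn] at h
  exact h

theorem tele_abs (hT : TELE_S.{u}) (hU : UBD_S.{u}) (c : Ctx G) (τ : Bool) (f g : G → ℝ) (x y : G)
    (ha : c.adm τ true 100 x y) (hK : c.K τ true 0 (c.len true) x y ≠ 0) :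
    |f x - g y| ≤ ∑ j ∈ Finset.range (c.len true), ∑ v, ∑ v',
      c.U τ true x y j v v' * |alt f g j v - alt f g (j + 1) v'| := by
  rw [tele_eq hT c τ f g x y hK]
  have h0 := (hU G c τ true x y ha).1
  refine (Finset.abs_sum_le_sum_abs _ _).trans (Finset.sum_le_sum fun j hj => ?_)
  refine (Finset.abs_sum_le_sum_abs _ _).trans (Finset.sum_le_sum fun v _ => ?_)
  refine (Finset.abs_sum_le_sum_abs _ _).trans (Finset.sum_le_sum fun v' _ => ?_)
  rw [abs_mul, abs_of_nonneg (h0 j v v' (Finset.mem_range.mp hj))]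

theorem K_ne (hKER : KER_S.{u}) (hNUM : NUM_S.{u}) (c : Ctx G) (τ : Bool) {x y : G}
    (ha : c.adm τ true 100 x y) : c.K τ true 0 (c.len true) x y ≠ 0 := by
  have h1 := (hKER G c τ true).2.2.2.2.2.2.2.2.1 x y ha
  have h2 := (hNUM G c).2.2.2.2.2.2.1 τ
  intro h
  rw [h] at h1
  nlinarith

end

end Pool.Agent.Lib.MP_688fd0_co.TE.H15
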