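import Pool.Agent.Lib.MP_688fd0_co.TE.Iface3

/-! Theorem E, module LINFG. -/

namespace Pool.Agent.Lib.MP_688fd0_co.TE.H15

universe u v

section

variable {V : Type u} {Val : Type v} [Fintype V] [Fintype Val] [DecidableEq V] {a : ℕ} (M : LM V Val a)
  (ω : Fld a V Val)

theorem lw_nonneg (j : ℕ) (x : V) (e : Val) : 0 ≤ M.lw ω j x e :=
  mul_nonneg (M.hk0 _ _ _) (div_nonneg (ind_nonneg _) (M.hP0 _ _))

theorem top_mono (j : ℕ) {F H : V → ℝ} (hFH : ∀ v, F v ≤ H v) (v : V) :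
    M.Top ω j F v ≤ M.Top ω j H v := by
  unfold LM.Top
  refine Finset.sum_le_sum fun x _ => Finset.sum_le_sum fun e _ => ?_
  exact mul_le_mul_of_nonneg_right
    (mul_le_mul_of_nonneg_right (hFH x) (lw_nonneg M ω j x e)) (M.hC0 _ _ _)

theorem top_nonneg (j : ℕ) {F : V → ℝ} (hF : ∀ v, 0 ≤ F v) (v : V) : 0 ≤ M.Top ω j F v := by
  unfold LM.Top
  refine Finset.sum_nonneg fun x _ => Finset.sum_nonneg fun e _ => ?_
  exact mul_nonneg (mul_nonneg (hF x) (lw_nonneg M ω j x e)) (M.hC0 _ _ _)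

theorem top_smul (j : ℕ) (F : V → ℝ) (c : ℝ) (v : V) :
    M.Top ω j (fun v => c * F v) v = c * M.Top ω j F v := by
  unfold LM.Top
  rw [Finset.mul_sum]
  refine Finset.sum_congr rfl fun x _ => ?_
  rw [Finset.mul_sum]
  refine Finset.sum_congr rfl fun e _ => ?_
  ring

theorem top_sum {κ : Type} (s : Finset κ) (j : ℕ) (F : κ → V → ℝ) (v : V) :
    M.Top ω j (fun v => ∑ k ∈ s, F k v) v = ∑ k ∈ s, M.Top ω j (F k) v := by
  have h1 : ∑ k ∈ s, M.Top ω j (F k) v =
      ∑ x, ∑ k ∈ s, ∑ e, F k x * M.lw ω j x e * M.C (j + 1) (M.ex x e) v := Finset.sum_comm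
  rw [h1]
  unfold LM.Top
  refine Finset.sum_congr rfl fun x _ => ?_
  have h2 : ∑ k ∈ s, ∑ e, F k x * M.lw ω j x e * M.C (j + 1) (M.ex x e) v =
      ∑ e, ∑ k ∈ s, F k x * M.lw ω j x e * M.C (j + 1) (M.ex x e) v := Finset.sum_comm
  rw [h2]
  refine Finset.sum_congr rfl fun e _ => ?_
  rw [Finset.sum_mul, Finset.sum_mul]

theorem gop_mono (j : ℕ) {F H : V → ℝ} (hFH : ∀ v, F v ≤ H v) (v : V) :
    M.Gop ω j F v ≤ M.Gop ω j H v := by
  unfold LM.Gop
  refine Finset.sum_le_sum fun x _ => Finset.sum_le_sum fun e _ => ?_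
  exact mul_le_mul_of_nonneg_left (hFH _) (mul_nonneg (M.hC0 _ _ _) (lw_nonneg M ω j x e))

theorem gop_nonneg (j : ℕ) {F : V → ℝ} (hF : ∀ v, 0 ≤ F v) (v : V) : 0 ≤ M.Gop ω j F v := by
  unfold LM.Gop
  refine Finset.sum_nonneg fun x _ => Finset.sum_nonneg fun e _ => ?_
  exact mul_nonneg (mul_nonneg (M.hC0 _ _ _) (lw_nonneg M ω j x e)) (hF _)

theorem gop_smul (j : ℕ) (F : V → ℝ) (c : ℝ) (v : V) :
    M.Gop ω j (fun v => c * F v) v = c * M.Gop ω j F v := by
  unfold LM.Gop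
  rw [Finset.mul_sum]
  refine Finset.sum_congr rfl fun x _ => ?_
  rw [Finset.mul_sum]
  refine Finset.sum_congr rfl fun e _ => ?_
  ring

theorem gop_sum {κ : Type} (s : Finset κ) (j : ℕ) (F : κ → V → ℝ) (v : V) :
    M.Gop ω j (fun v => ∑ k ∈ s, F k v) v = ∑ k ∈ s, M.Gop ω j (F k) v := by
  have h1 : ∑ k ∈ s, M.Gop ω j (F k) v =
      ∑ x, ∑ k ∈ s, ∑ e, M.C j v x * M.lw ω j x e * F k (M.ex x e) := Finset.sum_comm
  rw [h1]
  unfold LM.Gop
  refine Finset.sum_congr rfl fun x _ => ?_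
  have h2 : ∑ k ∈ s, ∑ e, M.C j v x * M.lw ω j x e * F k (M.ex x e) =
      ∑ e, ∑ k ∈ s, M.C j v x * M.lw ω j x e * F k (M.ex x e) := Finset.sum_comm
  rw [h2]
  refine Finset.sum_congr rfl fun e _ => ?_
  rw [Finset.mul_sum]

end

theorem linfg : LINFG_S.{u, v} := by
  intro V Val _ _ _ a M ω
  refine ⟨?_, ?_, ?_, ?_, ?_, ?_⟩
  · intro i n F H hF hFH
    induction n with
    | zero => exact fun v => ⟨hF v, hFH v⟩
    | succ n ih =>
      exact fun v => ⟨top_nonneg M ω _ (fun v => (ih v).1) v, top_mono M ω _ (fun v => (ih v).2) v⟩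
  · intro i n F c v
    induction n generalizing v with
    | zero => rfl
    | succ n ih =>
      have h : M.Fn ω i (fun v => c * F v) n = fun v => c * M.Fn ω i F n v := funext ih
      simp only [LM.Fn]
      rw [h, top_smul]
  · intro κ s i n F v
    induction n generalizing v with
    | zero => rfl
    | succ n ih =>
      have h : M.Fn ω i (fun v => ∑ k ∈ s, F k v) n = fun v => ∑ k ∈ s, M.Fn ω i (F k) n v :=
        funext ih
      simp only [LM.Fn]
      rw [h, top_sum]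
  · intro i n F H hF hFH
    induction n generalizing i with
    | zero => exact fun v => ⟨hF v, hFH v⟩
    | succ n ih =>
      exact fun v => ⟨gop_nonneg M ω _ (fun v => (ih (i + 1) v).1) v,
        gop_mono M ω _ (fun v => (ih (i + 1) v).2) v⟩
  · intro i n F c v
    induction n generalizing i v with
    | zero => rfl
    | succ n ih =>
      have h : M.Gn ω (fun v => c * F v) n (i + 1) = fun v => c * M.Gn ω F n (i + 1) v :=
        funext (ih (i + 1))
      simp only [LM.Gn]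
      rw [h, gop_smul]
  · intro κ s i n F v
    induction n generalizing i v with
    | zero => rfl
    | succ n ih =>
      have h : M.Gn ω (fun v => ∑ k ∈ s, F k v) n (i + 1) =
          fun v => ∑ k ∈ s, M.Gn ω (F k) n (i + 1) v := funext (ih (i + 1))
      simp only [LM.Gn]
      rw [h, gop_sum]

end Pool.Agent.Lib.MP_688fd0_co.TE.H15
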