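import Pool.Agent.Lib.MP_688fd0_co.TE.Iface3

/-! Theorem E, module PFG. -/

namespace Pool.Agent.Lib.MP_688fd0_co.TE.H15

universe u v

theorem pfg : PFG_S.{u, v} := by
  intro V Val _ _ _ a M z
  induction z with
  | nil => intro z'; simp [LM.pf, LM.pg]
  | cons s l ih =>
    intro z'
    cases z' with
    | nil => simp [LM.pf, LM.pg]
    | cons s' l' =>
      obtain ⟨h0, h1, h2⟩ := ih l'
      have hP := M.hP0 s.1 s.2
      have hq : 0 ≤ ind (s = s') / M.P s.1 s.2 := div_nonneg (ind_nonneg _) hP
      have ha : 0 ≤ (if s.1 = s'.1 then ind (s.2 = s'.2) / M.P s.1 s.2 else (1 : ℝ)) := by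
        split_ifs
        · exact div_nonneg (ind_nonneg _) hP
        · exact zero_le_one
      have hb : (if s.1 = s'.1 then ind (s.2 = s'.2) / M.P s.1 s.2 else (1 : ℝ)) ≤
          1 + ind (s = s') / M.P s.1 s.2 := by
        split_ifs with h
        · have h3 : ind (s.2 = s'.2) ≤ ind (s = s') := ind_mono fun h' => Prod.ext h h'
          have h4 : ind (s.2 = s'.2) / M.P s.1 s.2 ≤ ind (s = s') / M.P s.1 s.2 :=
            div_le_div_of_nonneg_right h3 hP
          linarith
        · linarith
      simp only [LM.pf, LM.pg]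
      refine ⟨mul_nonneg ha h0, mul_le_mul hb h1 h0 (by linarith), ?_⟩
      exact one_le_mul_of_one_le_of_one_le (by linarith) h2

end Pool.Agent.Lib.MP_688fd0_co.TE.H15
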